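import Mathlib

/-!
Random walks and kernels conditionally of negative type.
-/

namespace Pool.Agent.Lib.MP_47d77c_pr

open MonoidAlgebra Filter Topology

section Kernel

variable {G : Type*} [Group G] (ψ : G → ℝ)

/-- The bilinear form `(a, b) ↦ ∑ a_g b_h ψ (g⁻¹ h)` on the group algebra. -/
noncomputable def ker : MonoidAlgebra ℝ G →ₗ[ℝ] MonoidAlgebra ℝ G →ₗ[ℝ] ℝ :=
  LinearMap.compl₁₂
    (Finsupp.linearCombination ℝ (fun g => Finsupp.linearCombination ℝ (fun h => ψ (g⁻¹ * h))))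
    (coeffLinearEquiv ℝ).toLinearMap (coeffLinearEquiv ℝ).toLinearMap

/-- The augmentation. -/
noncomputable def aug : MonoidAlgebra ℝ G →ₐ[ℝ] ℝ := MonoidAlgebra.lift ℝ ℝ G (1 : G →* ℝ)

theorem aug_single (g : G) (x : ℝ) : aug (single g x) = x := by
  simp [aug]

theorem ker_single (g h : G) (x y : ℝ) :
    ker ψ (single g x) (single h y) = x * y * ψ (g⁻¹ * h) := by
  simp [ker, coeffLinearEquiv, mul_assoc]

theorem ker_eq_sum (a b : MonoidAlgebra ℝ G) :
    ker ψ a b = ∑ g ∈ a.coeff.support, ∑ h ∈ b.coeff.support,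
      a.coeff g * b.coeff h * ψ (g⁻¹ * h) := by
  simp [ker, coeffLinearEquiv, Finsupp.linearCombination_apply, Finsupp.sum, mul_assoc,
    Finset.mul_sum]

theorem aug_eq_sum (a : MonoidAlgebra ℝ G) : aug a = ∑ g ∈ a.coeff.support, a.coeff g := by
  rw [aug, MonoidAlgebra.lift_apply]
  simp [Finsupp.sum]

theorem ker_adjoint (s : G) (x : ℝ) (a b : MonoidAlgebra ℝ G) :
    ker ψ (single s x * a) b = ker ψ a (single s⁻¹ x * b) := by
  induction a using MonoidAlgebra.induction_linear with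
  | zero => simp
  | add a a' ha ha' => simp [mul_add, ha, ha']
  | single g y =>
    induction b using MonoidAlgebra.induction_linear with
    | zero => simp
    | add b b' hb hb' => rw [mul_add, map_add, map_add, hb, hb']
    | single h z =>
      rw [single_mul_single, single_mul_single, ker_single, ker_single, mul_inv_rev]
      rw [mul_assoc g⁻¹]
      ring

/-- `ψ` is conditionally of negative type. -/
def CondNeg : Prop := ∀ β : MonoidAlgebra ℝ G, aug β = 0 → ker ψ β β ≤ 0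

variable {B : Type*} [Fintype B] (s : B → G)

/-- The element `∑ r_i s_i` of the group algebra. -/
noncomputable def mu (r : B → ℝ) : MonoidAlgebra ℝ G := ∑ i, single (s i) (r i)

theorem aug_mu (r : B → ℝ) : aug (mu s r) = ∑ i, r i := by
  simp [mu, aug_single]

theorem ker_mu (hs : ∀ i, (s i)⁻¹ = s i) (r : B → ℝ) (a b : MonoidAlgebra ℝ G) :
    ker ψ (mu s r * a) b = ker ψ a (mu s r * b) := by
  simp only [mu, Finset.sum_mul, map_sum, LinearMap.sum_apply, ker_adjoint, hs]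

theorem ker_mu_pow (hs : ∀ i, (s i)⁻¹ = s i) (r : B → ℝ) (n : ℕ) (a b : MonoidAlgebra ℝ G) :
    ker ψ (mu s r ^ n * a) b = ker ψ a (mu s r ^ n * b) := by
  induction n generalizing a b with
  | zero => simp
  | succ n ih =>
    rw [pow_succ, mul_assoc, ih, ker_mu ψ s hs, ← mul_assoc, ← pow_succ', pow_succ]

/-- The sequence `n ↦ ⟨α, μ^n α⟩`. -/
noncomputable def mom (r : B → ℝ) (α : MonoidAlgebra ℝ G) (n : ℕ) : ℝ :=
  ker ψ α (mu s r ^ n * α)

theorem mom_midpoint (hψ : CondNeg ψ) (hs : ∀ i, (s i)⁻¹ = s i) (r : B → ℝ)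
    (hr : ∑ i, r i = 1) (α : MonoidAlgebra ℝ G) (a b : ℕ) :
    mom ψ s r α (a + a) + mom ψ s r α (b + b) ≤ 2 * mom ψ s r α (a + b) := by
  have h := hψ ((mu s r ^ a - mu s r ^ b) * α) (by
    rw [map_mul, map_sub, map_pow, map_pow, aug_mu, hr]; simp)
  have e : ker ψ ((mu s r ^ a - mu s r ^ b) * α) ((mu s r ^ a - mu s r ^ b) * α)
      = mom ψ s r α (a + a) + mom ψ s r α (b + b) - 2 * mom ψ s r α (a + b) := by
    simp only [sub_mul, map_sub, LinearMap.sub_apply, ker_mu_pow ψ s hs, mom]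
    simp only [← mul_assoc, ← pow_add]
    rw [add_comm b a]
    ring
  linarith

theorem mom_even_le (hψ : CondNeg ψ) (hs : ∀ i, (s i)⁻¹ = s i) (r : B → ℝ)
    (hr : ∑ i, r i = 1) (α : MonoidAlgebra ℝ G) (n : ℕ) :
    mom ψ s r α (2 * n) - mom ψ s r α 0 ≤ (2 * n) * (mom ψ s r α 1 - mom ψ s r α 0) := by
  -- increments of even terms are nonincreasing
  have hinc : ∀ n : ℕ, mom ψ s r α (2 * (n + 1)) - mom ψ s r α (2 * n) ≤
      2 * (mom ψ s r α 1 - mom ψ s r α 0) := by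
    intro n
    induction n with
    | zero =>
      have := mom_midpoint ψ s hψ hs r hr α 0 1
      norm_num at this ⊢
      linarith
    | succ n ih =>
      have h := mom_midpoint ψ s hψ hs r hr α n (n + 2)
      have e1 : n + n = 2 * n := by ring
      have e2 : n + 2 + (n + 2) = 2 * (n + 1 + 1) := by ring
      have e3 : n + (n + 2) = 2 * (n + 1) := by ring
      rw [e1, e2, e3] at h
      linarith
  induction n with
  | zero => simp
  | succ n ih =>
    have h := hinc n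
    push_cast
    linarith

/-- The linear functional of the rates attached to `α`. -/
noncomputable def lin (r : B → ℝ) (α : MonoidAlgebra ℝ G) : ℝ :=
  ker ψ α (mu s r * α) - (∑ i, r i) * ker ψ α α

theorem lin_add (r r' : B → ℝ) (a b : ℝ) (α : MonoidAlgebra ℝ G) :
    lin ψ s (a • r + b • r') α = a * lin ψ s r α + b * lin ψ s r' α := by
  have h : mu s (a • r + b • r') = a • mu s r + b • mu s r' := by
    simp only [mu, Finset.smul_sum, ← Finset.sum_add_distrib]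
    refine Finset.sum_congr rfl fun i _ => ?_
    simp [single_add]
  simp only [lin, h, add_mul, smul_mul_assoc, map_add, map_smul, smul_eq_mul, Pi.add_apply,
    Pi.smul_apply, Finset.sum_add_distrib, ← Finset.mul_sum]
  ring

theorem lin_smul (r : B → ℝ) (a : ℝ) (α : MonoidAlgebra ℝ G) :
    lin ψ s (a • r) α = a * lin ψ s r α := by
  have := lin_add ψ s r 0 a 0 α
  simpa using this

/-- Nonnegative elements of the group algebra. -/
def Nonneg (x : MonoidAlgebra ℝ G) : Prop := ∀ g, 0 ≤ x.coeff g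

theorem Nonneg.add {x y : MonoidAlgebra ℝ G} (hx : Nonneg x) (hy : Nonneg y) :
    Nonneg (x + y) := fun g => by
  rw [coeff_add, Finsupp.add_apply]; exact add_nonneg (hx g) (hy g)

theorem Nonneg.smul {x : MonoidAlgebra ℝ G} (hx : Nonneg x) {c : ℝ} (hc : 0 ≤ c) :
    Nonneg (c • x) := fun g => by
  rw [coeff_smul, Finsupp.smul_apply]; exact mul_nonneg hc (hx g)

omit [Group G] in
theorem nonneg_single (g : G) {c : ℝ} (hc : 0 ≤ c) : Nonneg (single g c) := fun h => by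
  classical
  rw [coeff_single, Finsupp.single_apply]; split_ifs <;> simp [hc]

theorem nonneg_one : Nonneg (1 : MonoidAlgebra ℝ G) := nonneg_single 1 zero_le_one

omit [Group G] in
theorem nonneg_sum {ι : Type*} (t : Finset ι) (f : ι → MonoidAlgebra ℝ G)
    (hf : ∀ i ∈ t, Nonneg (f i)) : Nonneg (∑ i ∈ t, f i) := fun g => by
  rw [coeff_sum, Finsupp.finsetSum_apply]
  exact Finset.sum_nonneg fun i hi => hf i hi g

theorem Nonneg.mul {x y : MonoidAlgebra ℝ G} (hx : Nonneg x) (hy : Nonneg y) :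
    Nonneg (x * y) := by
  rw [mul_def]
  refine nonneg_sum _ _ fun g _ => ?_
  refine nonneg_sum _ _ fun h _ => ?_
  exact nonneg_single _ (mul_nonneg (hx g) (hy h))

theorem Nonneg.pow {x : MonoidAlgebra ℝ G} (hx : Nonneg x) (n : ℕ) : Nonneg (x ^ n) := by
  induction n with
  | zero => simpa using nonneg_one
  | succ n ih => rw [pow_succ]; exact ih.mul hx

theorem nonneg_mu {r : B → ℝ} (hr : ∀ i, 0 ≤ r i) : Nonneg (mu s r) :=
  nonneg_sum _ _ fun i _ => nonneg_single _ (hr i)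

/-- Expectation functional. -/
noncomputable def ev : MonoidAlgebra ℝ G →ₗ[ℝ] ℝ := ker ψ 1

theorem ev_single (g : G) (x : ℝ) : ev ψ (single g x) = x * ψ g := by
  rw [ev, one_def, ker_single]; simp

theorem ev_eq_sum (a : MonoidAlgebra ℝ G) :
    ev ψ a = ∑ g ∈ a.coeff.support, a.coeff g * ψ g := by
  conv_lhs => rw [← sum_coeff_single a]
  simp [Finsupp.sum, ev_single]

theorem ker_single_mul (a b : MonoidAlgebra ℝ G) (g : G) :
    ker ψ a (single g 1 * b) = ∑ h ∈ a.coeff.support, ∑ k ∈ b.coeff.support,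
      a.coeff h * b.coeff k * ψ (h⁻¹ * (g * k)) := by
  conv_lhs => rw [← sum_coeff_single a, ← sum_coeff_single b]
  simp only [Finsupp.sum, Finset.mul_sum, map_sum, LinearMap.sum_apply, single_mul_single,
    ker_single, one_mul]
  rw [Finset.sum_comm]

theorem ev_mul (a b : MonoidAlgebra ℝ G) :
    ev ψ (a * b) = ∑ h ∈ a.coeff.support, ∑ k ∈ b.coeff.support,
      a.coeff h * b.coeff k * ψ (h * k) := by
  conv_lhs => rw [← sum_coeff_single a, ← sum_coeff_single b]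
  simp only [Finsupp.sum, Finset.mul_sum, Finset.sum_mul, map_sum, single_mul_single,
    ev_single]
  rw [Finset.sum_comm]

/-- A length function: nonnegative, symmetric, subadditive. -/
structure IsLen : Prop where
  one : ψ 1 = 0
  nonneg : ∀ g, 0 ≤ ψ g
  symm : ∀ g, ψ g⁻¹ = ψ g
  sub : ∀ g h, ψ (g * h) ≤ ψ g + ψ h

variable {ψ}

theorem ev_nonneg (hl : IsLen ψ) {x : MonoidAlgebra ℝ G} (hx : Nonneg x) : 0 ≤ ev ψ x := by
  rw [ev_eq_sum]
  exact Finset.sum_nonneg fun g _ => mul_nonneg (hx g) (hl.nonneg g)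

theorem ev_mul_le (hl : IsLen ψ) {x y : MonoidAlgebra ℝ G} (hx : Nonneg x) (hy : Nonneg y) :
    ev ψ (x * y) ≤ ev ψ x * aug y + aug x * ev ψ y := by
  rw [ev_mul, ev_eq_sum, ev_eq_sum, aug_eq_sum, aug_eq_sum, Finset.sum_mul_sum, Finset.sum_mul_sum,
    ← Finset.sum_add_distrib]
  refine Finset.sum_le_sum fun h _ => ?_
  rw [← Finset.sum_add_distrib]
  refine Finset.sum_le_sum fun k _ => ?_
  have := mul_le_mul_of_nonneg_left (hl.sub h k) (mul_nonneg (hx h) (hy k))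
  linarith

theorem le_ker_single_mul (hl : IsLen ψ) {α : MonoidAlgebra ℝ G} (hα : Nonneg α)
    (hα1 : aug α = 1) (g : G) :
    ψ g ≤ ker ψ α (single g 1 * α) + 2 * ev ψ α := by
  have h1 : ∑ h ∈ α.coeff.support, α.coeff h = 1 := by rw [← aug_eq_sum, hα1]
  have h2 : ψ g = ∑ h ∈ α.coeff.support, ∑ k ∈ α.coeff.support,
      α.coeff h * α.coeff k * ψ g := by
    simp only [← Finset.sum_mul, ← Finset.mul_sum, h1, mul_one, one_mul]
  have h3 : 2 * ev ψ α = ∑ h ∈ α.coeff.support, ∑ k ∈ α.coeff.support,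
      α.coeff h * α.coeff k * (ψ h + ψ k) := by
    have : ∀ h k : G, α.coeff h * α.coeff k * (ψ h + ψ k) =
        (α.coeff h * ψ h) * α.coeff k + α.coeff h * (α.coeff k * ψ k) := by
      intro h k; ring
    simp only [this, Finset.sum_add_distrib, ← Finset.mul_sum, ← Finset.sum_mul, h1,
      ← ev_eq_sum]
    ring
  rw [ker_single_mul, h3, ← Finset.sum_add_distrib, h2]
  refine Finset.sum_le_sum fun h _ => ?_
  rw [← Finset.sum_add_distrib]
  refine Finset.sum_le_sum fun k _ => ?_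
  rw [← mul_add]
  refine mul_le_mul_of_nonneg_left ?_ (mul_nonneg (hα h) (hα k))
  have e1 : ψ g ≤ ψ h + ψ (h⁻¹ * (g * k) * k⁻¹) := by
    have := hl.sub h (h⁻¹ * (g * k) * k⁻¹)
    rwa [show h * (h⁻¹ * (g * k) * k⁻¹) = g by group] at this
  have e2 := hl.sub (h⁻¹ * (g * k)) k⁻¹
  rw [hl.symm] at e2
  linarith

theorem ev_le_ker (hl : IsLen ψ) {α x : MonoidAlgebra ℝ G} (hα : Nonneg α)
    (hα1 : aug α = 1) (hx : Nonneg x) :
    ev ψ x ≤ ker ψ α (x * α) + aug x * (2 * ev ψ α) := by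
  have e : ker ψ α (x * α) = ∑ g ∈ x.coeff.support, x.coeff g * ker ψ α (single g 1 * α) := by
    conv_lhs => rw [← sum_coeff_single x]
    simp only [Finsupp.sum, Finset.sum_mul, map_sum]
    refine Finset.sum_congr rfl fun g _ => ?_
    have : single g (x.coeff g) = x.coeff g • single g (1 : ℝ) := by simp
    rw [this, smul_mul_assoc, map_smul, smul_eq_mul]
  rw [e, ev_eq_sum, aug_eq_sum, Finset.sum_mul, ← Finset.sum_add_distrib]
  refine Finset.sum_le_sum fun g _ => ?_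
  rw [← mul_add]
  exact mul_le_mul_of_nonneg_left (le_ker_single_mul hl hα hα1 g) (hx g)

variable {s}

theorem aug_mu_pow {p : B → ℝ} (hp1 : ∑ i, p i = 1) (n : ℕ) : aug (mu s p ^ n) = 1 := by
  rw [map_pow, aug_mu, hp1, one_pow]

theorem subadditive_ev (hl : IsLen ψ) {p : B → ℝ} (hp : ∀ i, 0 ≤ p i) (hp1 : ∑ i, p i = 1) :
    Subadditive (fun n => ev ψ (mu s p ^ n)) := by
  intro m n
  have := ev_mul_le hl ((nonneg_mu s hp).pow m) ((nonneg_mu s hp).pow n)
  rw [← pow_add, aug_mu_pow hp1, aug_mu_pow hp1] at this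
  simpa using this

theorem exists_speed (hl : IsLen ψ) {p : B → ℝ} (hp : ∀ i, 0 ≤ p i) (hp1 : ∑ i, p i = 1) :
    ∃ v : ℝ, Tendsto (fun n : ℕ => ev ψ (mu s p ^ n) / n) atTop (𝓝 v) := by
  refine ⟨_, (subadditive_ev (s := s) hl hp hp1).tendsto_lim ⟨0, ?_⟩⟩
  rintro _ ⟨n, rfl⟩
  exact div_nonneg (ev_nonneg hl ((nonneg_mu s hp).pow n)) (Nat.cast_nonneg n)

theorem speed_le_lin (hl : IsLen ψ) (hψ : CondNeg ψ) (hs : ∀ i, (s i)⁻¹ = s i) {p : B → ℝ}
    (hp : ∀ i, 0 ≤ p i) (hp1 : ∑ i, p i = 1) {v : ℝ}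
    (hv : Tendsto (fun n : ℕ => ev ψ (mu s p ^ n) / n) atTop (𝓝 v))
    {α : MonoidAlgebra ℝ G} (hα : Nonneg α) (hα1 : aug α = 1) :
    v ≤ lin ψ s p α := by
  have h2 : Tendsto (fun n : ℕ => 2 * (n + 1)) atTop atTop :=
    tendsto_atTop_mono (fun n => by simp only [id]; omega) tendsto_id
  have hv2 := hv.comp h2
  set K := mom ψ s p α 0 + 2 * ev ψ α with hK
  have hlin : lin ψ s p α = mom ψ s p α 1 - mom ψ s p α 0 := by
    simp [lin, mom, hp1]
  have hle : ∀ n : ℕ, ev ψ (mu s p ^ (2 * (n + 1))) / ((2 * (n + 1) : ℕ) : ℝ) ≤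
      lin ψ s p α + K / ((2 * (n + 1) : ℕ) : ℝ) := by
    intro n
    have hpos : (0 : ℝ) < ((2 * (n + 1) : ℕ) : ℝ) := by positivity
    rw [div_le_iff₀ hpos, add_mul, div_mul_cancel₀ _ hpos.ne']
    have h1 := ev_le_ker hl hα hα1 ((nonneg_mu s hp).pow (2 * (n + 1)))
    rw [aug_mu_pow hp1, one_mul] at h1
    have h3 := mom_even_le ψ s hψ hs p hp1 α (n + 1)
    rw [← hlin] at h3
    have h4 : mom ψ s p α (2 * (n + 1)) = ker ψ α (mu s p ^ (2 * (n + 1)) * α) := rfl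
    push_cast at h3 ⊢
    linarith
  have hlim : Tendsto (fun n : ℕ => lin ψ s p α + K / ((2 * (n + 1) : ℕ) : ℝ)) atTop
      (𝓝 (lin ψ s p α + 0)) := by
    refine tendsto_const_nhds.add ?_
    exact (tendsto_const_div_atTop_nhds_zero_nat K).comp h2
  rw [add_zero] at hlim
  exact le_of_tendsto_of_tendsto' hv2 hlim hle

/-- The averaged law used as a test element. -/
noncomputable def avg (s : B → G) (p : B → ℝ) (n : ℕ) : MonoidAlgebra ℝ G :=
  (1 / 2 : ℝ) • (mu s p ^ n + mu s p ^ (n + 1))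

theorem lin_avg (hs : ∀ i, (s i)⁻¹ = s i) {p : B → ℝ} (hp1 : ∑ i, p i = 1) (n : ℕ) :
    lin ψ s p (avg s p n) = (ev ψ (mu s p ^ (2 * n + 3)) + ev ψ (mu s p ^ (2 * n + 2))
      - ev ψ (mu s p ^ (2 * n + 1)) - ev ψ (mu s p ^ (2 * n))) / 4 := by
  have hk : ∀ a b : ℕ, ker ψ (mu s p ^ a) (mu s p ^ b) = ev ψ (mu s p ^ (a + b)) := by
    intro a b
    have := ker_mu_pow ψ s hs p a 1 (mu s p ^ b)
    rw [mul_one, ← pow_add] at this
    rw [this, ev]
  simp only [lin, avg, hp1, one_mul, mul_smul_comm, map_smul, smul_eq_mul, LinearMap.smul_apply,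
    map_add, LinearMap.add_apply, mul_add, ← pow_succ', hk]
  rw [show n + (n + 1) = 2 * n + 1 by ring, show n + 1 + (n + 1) = 2 * n + 2 by ring,
    show n + (n + 1 + 1) = 2 * n + 2 by ring, show n + 1 + (n + 1 + 1) = 2 * n + 3 by ring,
    show n + n = 2 * n by ring, show n + 1 + n = 2 * n + 1 by ring]
  ring

theorem sum_lin_avg (hs : ∀ i, (s i)⁻¹ = s i) {p : B → ℝ} (hp1 : ∑ i, p i = 1) (N : ℕ) :
    ∑ n ∈ Finset.range N, lin ψ s p (avg s p n) =
      (ev ψ (mu s p ^ (2 * N + 1)) + ev ψ (mu s p ^ (2 * N))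
        - ev ψ (mu s p ^ 1) - ev ψ (mu s p ^ 0)) / 4 := by
  induction N with
  | zero => simp
  | succ N ih =>
    rw [Finset.sum_range_succ, ih, lin_avg hs hp1,
      show 2 * (N + 1) + 1 = 2 * N + 3 by ring, show 2 * (N + 1) = 2 * N + 2 by ring]
    ring

theorem exists_lin_le (hl : IsLen ψ) (hs : ∀ i, (s i)⁻¹ = s i) {p : B → ℝ}
    (hp : ∀ i, 0 ≤ p i) (hp1 : ∑ i, p i = 1) {v : ℝ}
    (hv : Tendsto (fun n : ℕ => ev ψ (mu s p ^ n) / n) atTop (𝓝 v)) {ε : ℝ} (hε : 0 < ε) :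
    ∃ α : MonoidAlgebra ℝ G, Nonneg α ∧ aug α = 1 ∧ lin ψ s p α ≤ v + ε := by
  by_contra hcon
  push Not at hcon
  have hav : ∀ n, v + ε < lin ψ s p (avg s p n) := by
    intro n
    refine hcon _ ?_ ?_
    · exact (((nonneg_mu s hp).pow n).add ((nonneg_mu s hp).pow (n + 1))).smul (by norm_num)
    · rw [avg, map_smul, map_add, aug_mu_pow hp1, aug_mu_pow hp1, smul_eq_mul]; norm_num
  have h2 : Tendsto (fun n : ℕ => 2 * (n + 1)) atTop atTop :=
    tendsto_atTop_mono (fun n => by simp only [id]; omega) tendsto_id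
  have h3 : Tendsto (fun n : ℕ => 2 * (n + 1) + 1) atTop atTop :=
    tendsto_atTop_mono (fun n => by simp only [id]; omega) tendsto_id
  have l2 := hv.comp h2
  have l3 := hv.comp h3
  have hle : ∀ N : ℕ, v + ε ≤
      (ev ψ (mu s p ^ (2 * (N + 1) + 1)) / ((2 * (N + 1) + 1 : ℕ) : ℝ)) *
        ((2 * (N + 1) + 1 : ℕ) / (4 * (N + 1))) +
      (ev ψ (mu s p ^ (2 * (N + 1))) / ((2 * (N + 1) : ℕ) : ℝ)) * (1 / 2) := by
    intro N
    have hs1 : (N + 1 : ℕ) * (v + ε) ≤ ∑ n ∈ Finset.range (N + 1), lin ψ s p (avg s p n) := by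
      have := Finset.sum_le_sum (s := Finset.range (N + 1)) (fun n _ => (hav n).le)
      rwa [Finset.sum_const, Finset.card_range, nsmul_eq_mul] at this
    rw [sum_lin_avg hs hp1] at hs1
    have h0 : 0 ≤ ev ψ (mu s p ^ 1) := ev_nonneg hl ((nonneg_mu s hp).pow 1)
    have h0' : 0 ≤ ev ψ (mu s p ^ 0) := ev_nonneg hl ((nonneg_mu s hp).pow 0)
    have hN : (0 : ℝ) < (N : ℝ) + 1 := by positivity
    have e1 : (ev ψ (mu s p ^ (2 * (N + 1) + 1)) / ((2 * (N + 1) + 1 : ℕ) : ℝ)) *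
        ((2 * (N + 1) + 1 : ℕ) / (4 * (N + 1))) =
        ev ψ (mu s p ^ (2 * (N + 1) + 1)) / (4 * (N + 1)) := by
      have : ((2 * (N + 1) + 1 : ℕ) : ℝ) ≠ 0 := by positivity
      field_simp
    have e2 : (ev ψ (mu s p ^ (2 * (N + 1))) / ((2 * (N + 1) : ℕ) : ℝ)) * (1 / 2) =
        ev ψ (mu s p ^ (2 * (N + 1))) / (4 * (N + 1)) := by
      push_cast
      field_simp
      norm_num
    rw [e1, e2, ← add_div, le_div_iff₀ (by positivity)]
    push_cast at hs1
    nlinarith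
  have c1 : Tendsto (fun N : ℕ => (((2 * (N + 1) + 1 : ℕ) : ℝ) / (4 * (N + 1)))) atTop
      (𝓝 (1 / 2)) := by
    have : ∀ N : ℕ, (((2 * (N + 1) + 1 : ℕ) : ℝ) / (4 * (N + 1))) =
        1 / 2 + (1 / 4) * (1 / ((N : ℝ) + 1)) := by
      intro N
      have hN : (N : ℝ) + 1 ≠ 0 := by positivity
      push_cast
      field_simp
      ring
    simp only [this]
    have h := (tendsto_one_div_add_atTop_nhds_zero_nat (𝕜 := ℝ)).const_mul (1 / 4)
    have h' := h.const_add (1 / 2)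
    simpa using h'
  have lim := (l3.mul c1).add (l2.mul_const (1 / 2))
  have := ge_of_tendsto' lim hle
  linarith

theorem concave_speed (hl : IsLen ψ) (hψ : CondNeg ψ) (hs : ∀ i, (s i)⁻¹ = s i) [Nonempty B]
    (σ : (B → ℝ) → ℝ)
    (hσ : ∀ r : B → ℝ, (∀ i, 0 < r i) → Tendsto
      (fun n : ℕ => ev ψ (mu s ((∑ i, r i)⁻¹ • r) ^ n) / n) atTop (𝓝 (σ r / ∑ i, r i))) :
    ConcaveOn ℝ {r : B → ℝ | ∀ i, 0 < r i} σ := by
  have hconv : Convex ℝ {r : B → ℝ | ∀ i, 0 < r i} := by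
    have : {r : B → ℝ | ∀ i, 0 < r i} = Set.univ.pi (fun _ : B => Set.Ioi (0 : ℝ)) := by
      ext r; simp
    rw [this]
    exact convex_pi fun i _ => convex_Ioi 0
  have hR : ∀ r : B → ℝ, (∀ i, 0 < r i) → 0 < ∑ i, r i := fun r hr =>
    Finset.sum_pos (fun i _ => hr i) Finset.univ_nonempty
  have hp : ∀ r : B → ℝ, (∀ i, 0 < r i) → ∀ i, 0 ≤ ((∑ i, r i)⁻¹ • r) i := fun r hr i => by
    simp only [Pi.smul_apply, smul_eq_mul]
    exact mul_nonneg (inv_nonneg.2 (hR r hr).le) (hr i).le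
  have hp1 : ∀ r : B → ℝ, (∀ i, 0 < r i) → ∑ i, ((∑ i, r i)⁻¹ • r) i = 1 := fun r hr => by
    simp only [Pi.smul_apply, smul_eq_mul, ← Finset.mul_sum]
    exact inv_mul_cancel₀ (hR r hr).ne'
  have hup : ∀ r : B → ℝ, (∀ i, 0 < r i) → ∀ α : MonoidAlgebra ℝ G, Nonneg α → aug α = 1 →
      σ r ≤ lin ψ s r α := by
    intro r hr α hα hα1
    have h := speed_le_lin hl hψ hs (hp r hr) (hp1 r hr) (hσ r hr) hα hα1
    rw [lin_smul, div_le_iff₀ (hR r hr)] at h
    have := (hR r hr).ne'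
    calc σ r ≤ (∑ i, r i)⁻¹ * lin ψ s r α * ∑ i, r i := h
      _ = lin ψ s r α := by field_simp
  refine ⟨hconv, ?_⟩
  intro r hr r' hr' a b ha hb hab
  have hmem : ∀ i, 0 < (a • r + b • r') i := hconv hr hr' ha hb hab
  have hRpos := hR _ hmem
  refine le_of_forall_pos_le_add fun ε hε => ?_
  obtain ⟨α, hα, hα1, hα2⟩ := exists_lin_le hl hs (hp _ hmem) (hp1 _ hmem) (hσ _ hmem)
    (ε := ε / ∑ i, (a • r + b • r') i) (by positivity)
  rw [lin_smul, ← add_div, le_div_iff₀ hRpos] at hα2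
  have h3 : lin ψ s (a • r + b • r') α ≤ σ (a • r + b • r') + ε := by
    calc lin ψ s (a • r + b • r') α
        = (∑ i, (a • r + b • r') i)⁻¹ * lin ψ s (a • r + b • r') α *
          ∑ i, (a • r + b • r') i := by field_simp
      _ ≤ _ := hα2
  rw [lin_add] at h3
  have h4 := mul_le_mul_of_nonneg_left (hup r hr α hα hα1) ha
  have h5 := mul_le_mul_of_nonneg_left (hup r' hr' α hα hα1) hb
  simp only [smul_eq_mul]
  linarith

end Kernel

end Pool.Agent.Lib.MP_47d77c_pr
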