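import Mathlib
import Pool.Agent.Lib.MP_47d77c_pr.Kernel

section

/-!
The wall (inversion) cocycle of a Coxeter system, and the fact that the word length is
conditionally of negative type.
-/

namespace Pool.Agent.Lib.MP_47d77c_pr

open CoxeterSystem

variable {B W : Type*} [Group W] {M : CoxeterMatrix B} (cs : CoxeterSystem M W)

open scoped Classical in
/-- The action of a simple reflection on pairs (group element, sign). -/
noncomputable def flipFun (i : B) (x : W × ZMod 2) : W × ZMod 2 :=
  (cs.simple i * x.1 * cs.simple i, x.2 + if x.1 = cs.simple i then 1 else 0)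

open scoped Classical in
theorem flipFun_mk (i : B) (t : W) (z : ZMod 2) :
    flipFun cs i (t, z) =
      (cs.simple i * t * cs.simple i, z + if t = cs.simple i then 1 else 0) := rfl

theorem flipFun_flipFun (i : B) (x : W × ZMod 2) : flipFun cs i (flipFun cs i x) = x := by
  classical
  obtain ⟨t, z⟩ := x
  have h1 : cs.simple i * (cs.simple i * t * cs.simple i) * cs.simple i = t := by
    simp [mul_assoc]
  have h2 : (cs.simple i * t * cs.simple i = cs.simple i) ↔ (t = cs.simple i) := by
    constructor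
    · intro h
      have := congrArg (fun u => cs.simple i * u * cs.simple i) h
      simpa [mul_assoc] using this
    · rintro rfl
      simp
  rw [flipFun_mk, flipFun_mk, h1]
  by_cases h : t = cs.simple i
  · rw [if_pos h, if_pos (h2.2 h), add_assoc, CharTwo.add_self_eq_zero, add_zero]
  · rw [if_neg h, if_neg (fun h' => h (h2.1 h')), add_zero, add_zero]

/-- The permutation given by a simple reflection. -/
noncomputable def flipPerm (i : B) : Equiv.Perm (W × ZMod 2) where
  toFun := flipFun cs i
  invFun := flipFun cs i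
  left_inv := flipFun_flipFun cs i
  right_inv := flipFun_flipFun cs i

theorem flipPerm_apply (i : B) (x : W × ZMod 2) : flipPerm cs i x = flipFun cs i x := rfl

open scoped Classical in
theorem flip_mul_pow_apply (i j : B) (m : ℕ) (t : W) (z : ZMod 2) :
    ((flipPerm cs i * flipPerm cs j) ^ m) (t, z) =
      ((cs.simple i * cs.simple j) ^ m * t * ((cs.simple i * cs.simple j) ^ m)⁻¹,
        z + ∑ l ∈ Finset.range (2 * m),
          if t = cs.simple j * (cs.simple i * cs.simple j) ^ l then (1 : ZMod 2) else 0) := by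
  induction m with
  | zero => simp
  | succ m ih =>
    rw [pow_succ', Equiv.Perm.mul_apply, ih, Equiv.Perm.mul_apply, flipPerm_apply, flipPerm_apply]
    set ρ := cs.simple i * cs.simple j with hρ
    have hinv : ρ⁻¹ = cs.simple j * cs.simple i := by
      rw [hρ]; simp
    have hjρ : cs.simple j * ρ * cs.simple j = ρ⁻¹ := by
      rw [hinv, hρ]; simp [mul_assoc]
    have hjρp : ∀ k : ℕ, ρ⁻¹ ^ k * cs.simple j = cs.simple j * ρ ^ k := by
      intro k
      induction k with
      | zero => simp
      | succ k ihk =>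
        rw [pow_succ, mul_assoc]
        have : ρ⁻¹ * cs.simple j = cs.simple j * ρ := by
          rw [← hjρ]; simp [mul_assoc]
        rw [this, ← mul_assoc, ihk, mul_assoc, ← pow_succ]
    have e1 : (ρ ^ m * t * (ρ ^ m)⁻¹ = cs.simple j) ↔
        (t = cs.simple j * ρ ^ (2 * m)) := by
      constructor
      · intro h
        have : t = (ρ ^ m)⁻¹ * cs.simple j * ρ ^ m := by
          rw [← h]; group
        rw [this, ← inv_pow, hjρp, mul_assoc, ← pow_add, two_mul]
      · intro h
        rw [h, two_mul, pow_add, ← mul_assoc (cs.simple j), ← hjρp, inv_pow]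
        group
    have e2 : (cs.simple j * (ρ ^ m * t * (ρ ^ m)⁻¹) * cs.simple j = cs.simple i) ↔
        (t = cs.simple j * ρ ^ (2 * m + 1)) := by
      have hji : cs.simple j * cs.simple i * cs.simple j = cs.simple j * ρ := by
        rw [hρ]; simp [mul_assoc]
      constructor
      · intro h
        have h' : ρ ^ m * t * (ρ ^ m)⁻¹ = cs.simple j * ρ := by
          rw [← hji, ← h]; simp [mul_assoc]
        have : t = (ρ ^ m)⁻¹ * (cs.simple j * ρ) * ρ ^ m := by
          rw [← h']; group
        rw [this, ← inv_pow, ← mul_assoc, hjρp, mul_assoc, mul_assoc, ← pow_succ', ← pow_add]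
        congr 2
        ring
      · intro h
        have h' : ρ ^ m * t * (ρ ^ m)⁻¹ = cs.simple j * ρ := by
          have e : 2 * m + 1 = m + 1 + m := by ring
          rw [h, e, pow_add, pow_add, pow_one]
          rw [← mul_assoc (cs.simple j), ← mul_assoc (cs.simple j), ← hjρp, inv_pow]
          group
        rw [h', ← hji]; simp [mul_assoc]
    simp only [flipFun, Prod.mk.injEq]
    constructor
    · rw [pow_succ']
      simp only [hρ, mul_inv_rev, inv_simple, mul_assoc]
    · rw [show 2 * (m + 1) = 2 * m + 1 + 1 by ring, Finset.sum_range_succ, Finset.sum_range_succ]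
      simp only [e1, e2]
      ring

theorem flip_liftable : M.IsLiftable (flipPerm cs) := by
  classical
  intro i j
  ext ⟨t, z⟩ : 1
  rw [flip_mul_pow_apply]
  have h1 : (cs.simple i * cs.simple j) ^ M i j = 1 := cs.simple_mul_simple_pow i j
  rw [h1]
  have h2 : ∑ l ∈ Finset.range (2 * M i j),
      (if t = cs.simple j * (cs.simple i * cs.simple j) ^ l then (1 : ZMod 2) else 0) = 0 := by
    rw [two_mul, Finset.sum_range_add]
    simp only [pow_add, h1, one_mul]
    exact CharTwo.add_self_eq_zero _
  rw [h2]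
  simp

/-- The homomorphism from `W` to permutations of `W × ZMod 2`. -/
noncomputable def flipHom : W →* Equiv.Perm (W × ZMod 2) :=
  cs.lift ⟨flipPerm cs, flip_liftable cs⟩

theorem flipHom_simple (i : B) : flipHom cs (cs.simple i) = flipPerm cs i :=
  cs.lift_apply_simple (flip_liftable cs) i

open scoped Classical in
theorem flipHom_wordProd (ω : List B) (t : W) (z : ZMod 2) :
    flipHom cs (cs.wordProd ω) (t, z) =
      (cs.wordProd ω * t * (cs.wordProd ω)⁻¹, z + ((cs.rightInvSeq ω).count t : ZMod 2)) := by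
  induction ω generalizing z with
  | nil => simp
  | cons i ω ih =>
    rw [wordProd_cons, map_mul, Equiv.Perm.mul_apply, ih, flipHom_simple, flipPerm_apply]
    have e : (cs.wordProd ω * t * (cs.wordProd ω)⁻¹ = cs.simple i) ↔
        ((cs.wordProd ω)⁻¹ * cs.simple i * cs.wordProd ω = t) := by
      constructor
      · intro h; rw [← h]; group
      · intro h; rw [← h]; group
    simp only [flipFun, Prod.mk.injEq]
    constructor
    · simp only [mul_inv_rev, inv_simple, mul_assoc]
    · rw [rightInvSeq, List.count_cons]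
      simp only [e, beq_iff_eq]
      push_cast
      ring

/-- The sign cocycle. -/
noncomputable def eta (g t : W) : ZMod 2 := (flipHom cs g (t, 0)).2

theorem flipHom_apply (g t : W) (z : ZMod 2) :
    flipHom cs g (t, z) = (g * t * g⁻¹, z + eta cs g t) := by
  classical
  obtain ⟨ω, rfl⟩ := cs.wordProd_surjective g
  rw [eta, flipHom_wordProd, flipHom_wordProd]
  simp

theorem eta_mul (g h t : W) : eta cs (g * h) t = eta cs h t + eta cs g (h * t * h⁻¹) := by
  have h1 := flipHom_apply cs (g * h) t 0
  rw [map_mul, Equiv.Perm.mul_apply, flipHom_apply, flipHom_apply] at h1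
  have h2 := congrArg Prod.snd h1
  simp only [zero_add] at h2
  exact h2.symm

theorem eta_one (t : W) : eta cs 1 t = 0 := by
  simp [eta]

/-- Finitely many `t` have nonzero sign and their number is the length. -/
theorem exists_finset_eta (g : W) :
    ∃ F : Finset W, (∀ t, t ∈ F ↔ eta cs g t = 1) ∧ F.card = cs.length g := by
  classical
  obtain ⟨ω, hω, hg⟩ := cs.exists_isReduced g
  refine ⟨(cs.rightInvSeq ω).toFinset, ?_, ?_⟩
  · intro t
    rw [List.mem_toFinset, hg, eta, flipHom_wordProd]
    have hn := hω.nodup_rightInvSeq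
    simp only [zero_add]
    by_cases ht : t ∈ cs.rightInvSeq ω
    · simp [ht, List.count_eq_one_of_mem hn ht]
    · simp [ht, List.count_eq_zero_of_not_mem ht]
  · rw [List.toFinset_card_of_nodup hω.nodup_rightInvSeq, length_rightInvSeq, hg]
    exact hω.symm

end Pool.Agent.Lib.MP_47d77c_pr
end

section

/-!
The word length of a Coxeter system is conditionally of negative type.
-/

namespace Pool.Agent.Lib.MP_47d77c_pr

open CoxeterSystem MonoidAlgebra

variable {B W : Type*} [Group W] {M : CoxeterMatrix B} (cs : CoxeterSystem M W)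

theorem zmod2_cases (x : ZMod 2) : x = 0 ∨ x = 1 := by
  revert x; decide

open scoped Classical in
/-- The indicator of the left inversion set of `g`. -/
noncomputable def ind (g t : W) : ℝ := if eta cs g⁻¹ t = 1 then 1 else 0

theorem eta_conj (h u : W) : eta cs h (h⁻¹ * u * h) = eta cs h⁻¹ u := by
  have h1 := eta_mul cs h h⁻¹ u
  rw [mul_inv_cancel, eta_one, inv_inv] at h1
  have h2 : eta cs h (h⁻¹ * u * h) = - eta cs h⁻¹ u := by
    linear_combination -h1
  rw [h2, CharTwo.neg_eq]

theorem eta_inv_mul (g h u : W) :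
    eta cs (g⁻¹ * h) (h⁻¹ * u * h) = eta cs h⁻¹ u + eta cs g⁻¹ u := by
  rw [eta_mul, eta_conj]
  congr 2
  group

theorem ind_sub_sq (g h u : W) :
    (ind cs g u - ind cs h u) ^ 2 = ind cs (h⁻¹ * g) (h⁻¹ * u * h) := by
  have h1 := eta_inv_mul cs g h u
  have h2 : (h⁻¹ * g)⁻¹ = g⁻¹ * h := by group
  simp only [ind, h2, h1]
  rcases zmod2_cases (eta cs h⁻¹ u) with e1 | e1 <;>
  rcases zmod2_cases (eta cs g⁻¹ u) with e2 | e2 <;>
  rw [e1, e2] <;> norm_num
  decide

theorem length_eq_sum (g h : W) (U : Finset W)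
    (hU : ∀ t, ind cs g t ≠ 0 ∨ ind cs h t ≠ 0 → t ∈ U) :
    (cs.length (g⁻¹ * h) : ℝ) = ∑ u ∈ U, (ind cs g u - ind cs h u) ^ 2 := by
  classical
  obtain ⟨F, hF, hcard⟩ := exists_finset_eta cs (g⁻¹ * h)
  have hkey : ∀ u, (ind cs g u - ind cs h u) ^ 2 =
      if h⁻¹ * u * h ∈ F then (1 : ℝ) else 0 := by
    intro u
    rw [ind_sub_sq, ind]
    have h2 : (h⁻¹ * g)⁻¹ = g⁻¹ * h := by group
    rw [h2]
    by_cases h3 : eta cs (g⁻¹ * h) (h⁻¹ * u * h) = 1
    · rw [if_pos h3, if_pos ((hF _).2 h3)]
    · rw [if_neg h3, if_neg (fun h4 => h3 ((hF _).1 h4))]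
  simp only [hkey]
  rw [Finset.sum_ite, Finset.sum_const_zero, add_zero, Finset.sum_const, nsmul_eq_mul, mul_one,
    ← hcard]
  congr 1
  refine Finset.card_bij (fun t _ => h * t * h⁻¹) ?_ ?_ ?_
  · intro t ht
    have h3 : h⁻¹ * (h * t * h⁻¹) * h = t := by group
    have h4 := hkey (h * t * h⁻¹)
    rw [h3, if_pos ht] at h4
    refine Finset.mem_filter.2 ⟨hU _ ?_, ?_⟩
    · by_contra hcon
      push Not at hcon
      rw [hcon.1, hcon.2] at h4
      norm_num at h4
    · rw [h3]; exact ht
  · intro t _ t' _ he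
    have := congrArg (fun x => h⁻¹ * x * h) he
    simpa [mul_assoc] using this
  · intro u hu
    refine ⟨h⁻¹ * u * h, (Finset.mem_filter.1 hu).2, ?_⟩
    group

theorem condNeg_length : CondNeg (fun g : W => (cs.length g : ℝ)) := by
  classical
  intro β hβ
  rw [aug_eq_sum] at hβ
  rw [ker_eq_sum]
  choose F hF _ using exists_finset_eta cs
  set U : Finset W := β.coeff.support.biUnion (fun g => F g⁻¹) with hU
  have hmem : ∀ g ∈ β.coeff.support, ∀ t, ind cs g t ≠ 0 → t ∈ U := by
    intro g hg t ht
    refine Finset.mem_biUnion.2 ⟨g, hg, (hF _ _).2 ?_⟩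
    by_contra hcon
    exact ht (by rw [ind, if_neg hcon])
  have h1 : ∀ g ∈ β.coeff.support, ∀ h ∈ β.coeff.support,
      β.coeff g * β.coeff h * (cs.length (g⁻¹ * h) : ℝ) =
      ∑ u ∈ U, β.coeff g * β.coeff h * (ind cs g u - ind cs h u) ^ 2 := by
    intro g hg h hh
    rw [length_eq_sum cs g h U, Finset.mul_sum]
    rintro t (ht | ht)
    · exact hmem g hg t ht
    · exact hmem h hh t ht
  rw [Finset.sum_congr rfl fun g hg => Finset.sum_congr rfl fun h hh => h1 g hg h hh]
  have h2 : ∑ g ∈ β.coeff.support, ∑ h ∈ β.coeff.support, ∑ u ∈ U,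
      β.coeff g * β.coeff h * (ind cs g u - ind cs h u) ^ 2 =
      ∑ u ∈ U, ∑ g ∈ β.coeff.support, ∑ h ∈ β.coeff.support,
      β.coeff g * β.coeff h * (ind cs g u - ind cs h u) ^ 2 := by
    rw [Finset.sum_congr rfl fun g _ => Finset.sum_comm]
    exact Finset.sum_comm
  rw [h2]
  refine Finset.sum_nonpos fun u _ => ?_
  have h3 : ∑ g ∈ β.coeff.support, ∑ h ∈ β.coeff.support,
      β.coeff g * β.coeff h * (ind cs g u - ind cs h u) ^ 2 =
      (∑ g ∈ β.coeff.support, β.coeff g * ind cs g u ^ 2) * (∑ h ∈ β.coeff.support, β.coeff h) +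
      (∑ g ∈ β.coeff.support, β.coeff g) * (∑ h ∈ β.coeff.support, β.coeff h * ind cs h u ^ 2)
      - 2 * ((∑ g ∈ β.coeff.support, β.coeff g * ind cs g u) *
        (∑ h ∈ β.coeff.support, β.coeff h * ind cs h u)) := by
    rw [Finset.sum_mul_sum, Finset.sum_mul_sum, Finset.sum_mul_sum, Finset.mul_sum,
      ← Finset.sum_add_distrib, ← Finset.sum_sub_distrib]
    refine Finset.sum_congr rfl fun g _ => ?_
    rw [Finset.mul_sum, ← Finset.sum_add_distrib, ← Finset.sum_sub_distrib]
    refine Finset.sum_congr rfl fun h _ => ?_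
    ring
  rw [h3, hβ]
  nlinarith [sq_nonneg (∑ g ∈ β.coeff.support, β.coeff g * ind cs g u)]

theorem isLen_length : IsLen (fun g : W => (cs.length g : ℝ)) where
  one := by simp
  nonneg g := Nat.cast_nonneg _
  symm g := by simp
  sub g h := by exact_mod_cast cs.length_mul_le g h

end Pool.Agent.Lib.MP_47d77c_pr
end
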