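import Mathlib

/-!
Poisson averages of sequences of linear growth.
-/

namespace Pool.Agent.Lib.MP_47d77c_pr

open Filter Topology

/-- Poisson weights. -/
noncomputable def pw (lam : ℝ) (n : ℕ) : ℝ := Real.exp (-lam) * lam ^ n / n.factorial

theorem pw_nonneg {lam : ℝ} (h : 0 ≤ lam) (n : ℕ) : 0 ≤ pw lam n := by
  unfold pw; positivity

theorem hasSum_pw (lam : ℝ) : HasSum (pw lam) 1 := by
  have h := (NormedSpace.expSeries_div_hasSum_exp lam).mul_left (Real.exp (-lam))
  rw [← Real.exp_eq_exp_ℝ, ← Real.exp_add, neg_add_cancel, Real.exp_zero] at h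
  have e : pw lam = fun n => Real.exp (-lam) * (lam ^ n / n.factorial) := by
    ext n
    simp [pw, mul_div_assoc]
  rw [e]
  exact h

theorem hasSum_pw_mul (lam : ℝ) : HasSum (fun n : ℕ => pw lam n * n) lam := by
  rw [← hasSum_nat_add_iff' 1]
  simp only [Finset.range_one, Finset.sum_singleton, Nat.cast_zero, mul_zero, sub_zero]
  have h := (hasSum_pw lam).mul_left lam
  rw [mul_one] at h
  have e : (fun n : ℕ => pw lam (n + 1) * ((n + 1 : ℕ) : ℝ)) = fun n => lam * pw lam n := by
    ext n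
    unfold pw
    rw [Nat.factorial_succ]
    push_cast
    have : ((n : ℝ) + 1) ≠ 0 := by positivity
    have h2 : ((n.factorial : ℕ) : ℝ) ≠ 0 := by positivity
    field_simp
    ring
  rw [e]
  exact h

theorem abs_tsum_sub_le {m : ℕ → ℝ} {v ε C lam : ℝ} (hlam : 0 ≤ lam) 
    (h : ∀ n : ℕ, |m n - v * n| ≤ ε * n + C) :
    Summable (fun n => pw lam n * m n) ∧ |∑' n, pw lam n * m n - v * lam| ≤ ε * lam + C := by
  have h1 := (hasSum_pw_mul lam).mul_left ε
  have h2 := (hasSum_pw lam).mul_left C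
  have h3 := h1.add h2
  have hd : ∀ n : ℕ, ‖pw lam n * (m n - v * n)‖ ≤ ε * (pw lam n * n) + C * pw lam n := by
    intro n
    rw [norm_mul, Real.norm_of_nonneg (pw_nonneg hlam n), Real.norm_eq_abs]
    have := mul_le_mul_of_nonneg_left (h n) (pw_nonneg hlam n)
    linarith
  have hs : Summable (fun n => pw lam n * (m n - v * n)) := Summable.of_norm_bounded h3.summable hd
  have hv := (hasSum_pw_mul lam).mul_left v
  have hsum : HasSum (fun n => pw lam n * m n)
      (∑' n, pw lam n * (m n - v * n) + v * lam) := by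
    have := hs.hasSum.add hv
    convert this using 2 with n
    ring
  refine ⟨hsum.summable, ?_⟩
  rw [hsum.tsum_eq, add_sub_cancel_right]
  have := tsum_of_norm_bounded h3 hd
  rw [Real.norm_eq_abs] at this
  simpa using this

theorem linear_bound {m : ℕ → ℝ} {v : ℝ}
    (hm : Tendsto (fun n : ℕ => m n / n) atTop (𝓝 v)) {ε : ℝ} (hε : 0 < ε) :
    ∃ C : ℝ, 0 ≤ C ∧ ∀ n : ℕ, |m n - v * n| ≤ ε * n + C := by
  obtain ⟨N, hN⟩ := Metric.tendsto_atTop.1 hm ε hε
  refine ⟨∑ k ∈ Finset.range (N + 1), |m k - v * k|,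
    Finset.sum_nonneg fun _ _ => abs_nonneg _, fun n => ?_⟩
  have hC : 0 ≤ ∑ k ∈ Finset.range (N + 1), |m k - v * k| :=
    Finset.sum_nonneg fun _ _ => abs_nonneg _
  by_cases hn : n < N + 1
  · have := Finset.single_le_sum (f := fun k : ℕ => |m k - v * k|)
      (fun k _ => abs_nonneg _) (Finset.mem_range.2 hn)
    have h2 : 0 ≤ ε * n := by positivity
    linarith
  · have hn' : 0 < (n : ℝ) := by
      have : 0 < n := by omega
      exact_mod_cast this
    have h1 := hN n (by omega)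
    rw [Real.dist_eq] at h1
    have h2 : |m n - v * n| = |m n / n - v| * n := by
      rw [← abs_of_pos hn', ← abs_mul, abs_of_pos hn']
      congr 1
      field_simp
    rw [h2]
    nlinarith

theorem tendsto_poisson {m : ℕ → ℝ} {v R : ℝ} (hR : 0 < R)
    (hm : Tendsto (fun n : ℕ => m n / n) atTop (𝓝 v)) :
    Tendsto (fun t : ℝ => (∑' n, pw (R * t) n * m n) / t) atTop (𝓝 (R * v)) := by
  rw [Metric.tendsto_atTop]
  intro ε hε
  obtain ⟨C, hC0, hC⟩ := linear_bound hm (ε := ε / (2 * R)) (by positivity)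
  refine ⟨2 * C / ε + 1, fun t ht => ?_⟩
  have ht0 : 0 < t := lt_of_lt_of_le (by positivity) ht
  obtain ⟨_, h⟩ := abs_tsum_sub_le (lam := R * t) (by positivity) hC
  rw [Real.dist_eq]
  have e : (∑' n, pw (R * t) n * m n) / t - R * v =
      (∑' n, pw (R * t) n * m n - v * (R * t)) / t := by
    field_simp
  rw [e, abs_div, abs_of_pos ht0, div_lt_iff₀ ht0]
  refine lt_of_le_of_lt h ?_
  have e2 : ε / (2 * R) * (R * t) = ε * t / 2 := by field_simp
  rw [e2]
  have h3 : 2 * C < ε * t := by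
    have : 2 * C / ε < t := by linarith
    rwa [div_lt_iff₀ hε, mul_comm t ε] at this
  linarith

end Pool.Agent.Lib.MP_47d77c_pr
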